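import Pool.Agent.Y811.PC.Stm

set_option autoImplicit false

/-! # The initial condition -/

namespace Pool.Agent.Y48.PC

open Complex Metric Set Filter Topology Pool.Agent.H712R2 Pool.Agent.H713R2 N62a1eb23
open Pool.Agent.Y811.PC

theorem P_cont (d n : ℕ) : Continuous fun c : ℂ => P d n c := by
  induction n with
  | zero => exact continuous_const
  | succ n ih =>
    have h : (fun c : ℂ => P d (n + 1) c) = fun c => P d n c ^ d + c := by
      funext c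
      unfold P
      rw [Function.iterate_succ_apply']
      rfl
    rw [h]
    exact (ih.pow d).add continuous_id

theorem P_step (d m n : ℕ) (c : ℂ) : P d (n + m) c = G d m c (P d n c) := by
  unfold P G
  rw [← Function.iterate_add_apply, add_comm]

theorem gs_cont (k : ℕ) : Continuous fun L : ℂ => gs L k := by
  unfold gs
  fun_prop

theorem gs_one (k : ℕ) : gs 1 k = k := by
  unfold gs
  simp

theorem t_INIT (hA : S_ANA) : S_INIT := by
  intro d m q c₀ z₀ s b ρ ε C N₀ hPD hNF hOrb η K₁ hη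
  have hc0 : c₀ ∈ ball c₀ ε := mem_ball_self hNF.hε
  have hz0 : z₀ ∈ ball z₀ ε := mem_ball_self hNF.hε
  set u : ℕ → ℂ := fun k => P d (N₀ + m * k) c₀ - z₀ with hu
  have hu0 : ∀ k, u k ≠ 0 := fun k => sub_ne_zero.2 (hOrb.2 k)
  have hut : Tendsto u atTop (𝓝 0) := by
    have h1 := hOrb.1.sub_const z₀
    rwa [sub_self] at h1
  have hun : Tendsto (fun k => ‖u k‖) atTop (𝓝 0) := by
    have h1 := hut.norm
    rwa [norm_zero] at h1
  have hL : Lq d m q c₀ z₀ = 1 := by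
    unfold Lq
    rw [hPD.mul.pow_eq_one, inv_one]
  have hstep : ∀ k, u (k + 1) = G d m c₀ (z₀ + u k) - z₀ := by
    intro k
    simp only [hu]
    rw [add_sub_cancel, ← P_step, mul_add, mul_one, add_assoc]
  set T : ℕ → ℂ := fun k => (s c₀ z₀ (u k))⁻¹ with hT
  -- the differences
  have hdiff : Tendsto (fun k => T (k + 1) - T k + b c₀ z₀) atTop (𝓝 0) := by
    apply squeeze_zero_norm' (a := fun k => C * ‖u k‖)
    · filter_upwards [hun.eventually (ge_mem_nhds hNF.hρ)] with k hk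
      have h1 := (hNF.step c₀ hc0 z₀ hz0 hPD.fix (u k) (hu0 k) hk).2.2
      rw [← hstep, hL, one_mul] at h1
      refine le_trans (le_of_eq ?_) h1
      congr 1
      simp only [hT]
      ring
    · have := hun.const_mul C
      rwa [mul_zero] at this
  have hces := hdiff.cesaro_smul
  have hsum : ∀ k, ∑ i ∈ Finset.range k, (T (i + 1) - T i + b c₀ z₀) = T k - T 0 + k * b c₀ z₀ := by
    intro k
    rw [Finset.sum_add_distrib, Finset.sum_range_sub, Finset.sum_const, Finset.card_range,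
      nsmul_eq_mul]
  have hlim : Tendsto (fun k : ℕ => ((k : ℝ)⁻¹) • (T k + k * b c₀ z₀)) atTop (𝓝 0) := by
    have h1 : Tendsto (fun k : ℕ => ((k : ℝ)⁻¹) • (T 0)) atTop (𝓝 ((0 : ℝ) • (T 0))) :=
      (tendsto_inv_atTop_nhds_zero_nat (𝕜 := ℝ)).smul_const _
    rw [zero_smul] at h1
    have h2 := hces.add h1
    rw [add_zero] at h2
    refine h2.congr fun k => ?_
    rw [hsum, ← smul_add]
    congr 1
    ring
  have hlim' : ∀ᶠ k : ℕ in atTop, ‖T k + k * b c₀ z₀‖ < η * k := by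
    have h1 := hlim.norm
    rw [norm_zero] at h1
    filter_upwards [h1.eventually (gt_mem_nhds hη), eventually_ge_atTop 1] with k hk hk1
    have hk0 : (0 : ℝ) < k := by exact_mod_cast hk1
    rw [norm_smul, norm_inv, Real.norm_of_nonneg hk0.le, inv_mul_lt_iff₀ hk0] at hk
    linarith
  obtain ⟨k₀, hk1, hk2, hk3⟩ := (hlim'.and ((hun.eventually (gt_mem_nhds hNF.hρ)).and
    (eventually_ge_atTop K₁))).exists
  -- continuity
  have hP : ContinuousAt (fun p : ℂ × ℂ => P d (N₀ + m * k₀) p.1 - p.2) (c₀, z₀) :=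
    (((P_cont d (N₀ + m * k₀)).comp continuous_fst).sub continuous_snd).continuousAt
  have hsopen : IsOpen (ball c₀ ε ×ˢ (ball z₀ ε ×ˢ (univ : Set ℂ))) :=
    isOpen_ball.prod (isOpen_ball.prod isOpen_univ)
  have hsc : ContinuousAt (fun p : ℂ × ℂ × ℂ => s p.1 p.2.1 p.2.2) (c₀, z₀, u k₀) :=
    (hNF.diff.differentiableAt (hsopen.mem_nhds ⟨hc0, hz0, mem_univ _⟩)).continuousAt
  have hsc' : ContinuousAt (fun p : ℂ × ℂ => s p.1 p.2 (P d (N₀ + m * k₀) p.1 - p.2)) (c₀, z₀) := by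
    have h1 : ContinuousAt (fun p : ℂ × ℂ => (p.1, p.2, P d (N₀ + m * k₀) p.1 - p.2)) (c₀, z₀) :=
      continuousAt_fst.prodMk (continuousAt_snd.prodMk hP)
    exact ContinuousAt.comp (f := fun p : ℂ × ℂ => (p.1, p.2, P d (N₀ + m * k₀) p.1 - p.2))
      (g := fun p : ℂ × ℂ × ℂ => s p.1 p.2.1 p.2.2) hsc h1
  have hs0 : s c₀ z₀ (u k₀) ≠ 0 := by
    intro h0
    have h1 := (hNF.size c₀ hc0 z₀ hz0 (u k₀) (by linarith [hNF.hρ, norm_nonneg (u k₀)])).1
    rw [h0, norm_zero] at h1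
    have h2 : 0 < ‖u k₀‖ ^ q := pow_pos (norm_pos_iff.2 (hu0 k₀)) q
    linarith
  have hbc : ContinuousAt (fun p : ℂ × ℂ => b p.1 p.2) (c₀, z₀) :=
    hNF.cont.continuousAt ((isOpen_ball.prod isOpen_ball).mem_nhds ⟨hc0, hz0⟩)
  have hLc : ContinuousAt (fun p : ℂ × ℂ => Lq d m q p.1 p.2) (c₀, z₀) := by
    have h1 : ContinuousAt (fun p : ℂ × ℂ => mu d m p.1 p.2) (c₀, z₀) := (hA d m c₀ z₀).2.continuousAt
    unfold Lq
    exact (h1.pow q).inv₀ (pow_ne_zero q (hNF.mune c₀ hc0 z₀ hz0))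
  have hgc : ContinuousAt (fun p : ℂ × ℂ => gs (Lq d m q p.1 p.2) k₀) (c₀, z₀) :=
    (gs_cont k₀).continuousAt.comp hLc
  have hfin : ContinuousAt (fun p : ℂ × ℂ => ‖(s p.1 p.2 (P d (N₀ + m * k₀) p.1 - p.2))⁻¹ +
      b p.1 p.2 * gs (Lq d m q p.1 p.2) k₀‖) (c₀, z₀) :=
    ((hsc'.inv₀ hs0).add (hbc.mul hgc)).norm
  have e1 : ∀ᶠ p : ℂ × ℂ in 𝓝 (c₀, z₀), P d (N₀ + m * k₀) p.1 - p.2 ≠ 0 :=
    hP.eventually_ne (hu0 k₀)
  have e2 : ∀ᶠ p : ℂ × ℂ in 𝓝 (c₀, z₀), ‖P d (N₀ + m * k₀) p.1 - p.2‖ < ρ :=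
    hP.norm.eventually (gt_mem_nhds hk2)
  have e3 : ∀ᶠ p : ℂ × ℂ in 𝓝 (c₀, z₀), ‖(s p.1 p.2 (P d (N₀ + m * k₀) p.1 - p.2))⁻¹ +
      b p.1 p.2 * gs (Lq d m q p.1 p.2) k₀‖ < η * k₀ := by
    refine hfin.eventually (gt_mem_nhds ?_)
    simp only
    rw [hL, gs_one, mul_comm (b c₀ z₀)]
    exact hk1
  obtain ⟨δ, hδ, hball⟩ := Metric.eventually_nhds_iff_ball.1 (e1.and (e2.and e3))
  refine ⟨k₀, min δ ε, hk3, lt_min hδ hNF.hε, min_le_right _ _, fun c hc α hα => ?_⟩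
  have hmem : ((c, α) : ℂ × ℂ) ∈ ball (c₀, z₀) δ := by
    rw [← ball_prod_same]
    exact ⟨ball_subset_ball (min_le_left _ _) hc, ball_subset_ball (min_le_left _ _) hα⟩
  obtain ⟨f1, f2, f3⟩ := hball (c, α) hmem
  exact ⟨f1, f2.le, f3.le⟩

end Pool.Agent.Y48.PC
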