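import Pool.Agent.Y811.PC.Stm

set_option autoImplicit false

/-! # At least `q` petals -/

namespace Pool.Agent.Y48.PC

open Complex Metric Set Filter Topology Pool.Agent.H712R2 Pool.Agent.H713R2 N62a1eb23
open Pool.Agent.Y811.PC Asymptotics

theorem t_NUGE : S_NUGE := by
  intro g hg z₀ q hq hfix hprim ν a hν ha ha0 hgerm
  set l := deriv g z₀ with hl
  have hl0 : l ≠ 0 := hprim.ne_zero (by omega)
  have hs : HasStrictDerivAt g l z₀ := (hg.analyticAt z₀).hasStrictDerivAt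
  have hda : Tendsto a (𝓝 0) (𝓝 (a 0)) := ha.continuousAt
  have hv0 : Tendsto (fun u => g (z₀ + u) - z₀) (𝓝 0) (𝓝 0) := by
    have h1 : ContinuousAt (fun u => g (z₀ + u) - z₀) 0 := by
      have := hg.continuous
      fun_prop
    have h2 : g (z₀ + 0) - z₀ = 0 := by rw [add_zero, hfix, sub_self]
    have h3 := h1.tendsto
    rwa [h2] at h3
  -- the equation
  have hkey : ∀ᶠ u in 𝓝 (0 : ℂ), (g (z₀ + u) - z₀) ^ (ν + 1) * a (g (z₀ + u) - z₀) =
      g (z₀ + u + u ^ (ν + 1) * a u) - g (z₀ + u) := by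
    filter_upwards [hgerm, hv0.eventually hgerm] with u h1 h2
    have h3 : g^[q] (g (z₀ + u)) = g (g^[q] (z₀ + u)) := by
      rw [← Function.iterate_succ_apply, Function.iterate_succ_apply']
    rw [add_sub_cancel, h3, h1] at h2
    rw [h2]
    ring
  -- the left hand side
  have hv1 : Tendsto (fun u => (g (z₀ + u) - z₀) / u) (𝓝[≠] 0) (𝓝 l) := by
    have h1 := (hasDerivAt_iff_tendsto_slope_zero.1 hs.hasDerivAt)
    refine h1.congr fun u => ?_
    rw [smul_eq_mul, hfix]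
    ring
  have hA : Tendsto (fun u => ((g (z₀ + u) - z₀) / u) ^ (ν + 1) * a (g (z₀ + u) - z₀)) (𝓝[≠] 0)
      (𝓝 (l ^ (ν + 1) * a 0)) :=
    (hv1.pow (ν + 1)).mul (hda.comp (hv0.mono_left nhdsWithin_le_nhds))
  -- the right hand side
  have hw0 : Tendsto (fun u => z₀ + u + u ^ (ν + 1) * a u) (𝓝 0) (𝓝 z₀) := by
    have h1 : Tendsto (fun u : ℂ => u ^ (ν + 1)) (𝓝 0) (𝓝 (0 ^ (ν + 1))) :=
      (continuous_pow (ν + 1)).continuousAt
    have h2 : Tendsto (fun u : ℂ => z₀ + u) (𝓝 0) (𝓝 (z₀ + 0)) :=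
      (continuous_const.add continuous_id).continuousAt
    have h3 := h2.add (h1.mul hda)
    rw [zero_pow (by omega), zero_mul, add_zero, add_zero] at h3
    exact h3
  have hw1 : Tendsto (fun u : ℂ => z₀ + u) (𝓝 0) (𝓝 z₀) := by
    have h2 : Tendsto (fun u : ℂ => z₀ + u) (𝓝 0) (𝓝 (z₀ + 0)) :=
      (continuous_const.add continuous_id).continuousAt
    rwa [add_zero] at h2
  have hr : (fun u => g (z₀ + u + u ^ (ν + 1) * a u) - g (z₀ + u) - l * (u ^ (ν + 1) * a u))
      =o[𝓝 0] fun u => u ^ (ν + 1) := by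
    have h1 := hs.hasStrictFDerivAt.isLittleO
    have h2 := h1.comp_tendsto (hw0.prodMk_nhds hw1)
    have h3 : (fun u : ℂ => u ^ (ν + 1) * a u) =O[𝓝 0] fun u => u ^ (ν + 1) := by
      have h4 := (isBigO_refl (fun u : ℂ => u ^ (ν + 1)) (𝓝 0)).mul (hda.isBigO_one ℂ)
      simpa using h4
    refine (h2.congr (fun u => ?_) (fun u => ?_)).trans_isBigO h3
    · simp only [Function.comp_apply]
      rw [add_sub_cancel_left]
      simp only [ContinuousLinearMap.toSpanSingleton_apply, smul_eq_mul]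
      ring
    · simp only [Function.comp_apply]
      ring
  have hB : Tendsto (fun u => (g (z₀ + u + u ^ (ν + 1) * a u) - g (z₀ + u)) / u ^ (ν + 1)) (𝓝[≠] 0)
      (𝓝 (l * a 0)) := by
    have h1 := hr.tendsto_div_nhds_zero.mono_left (nhdsWithin_le_nhds (s := {0}ᶜ))
    have h2 := (((hda.const_mul l)).mono_left (nhdsWithin_le_nhds (s := {0}ᶜ))).add h1
    rw [add_zero] at h2
    refine h2.congr' ?_
    filter_upwards [self_mem_nhdsWithin] with u hu
    have hu0 : u ≠ 0 := hu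
    field_simp
    ring
  have hAB : l ^ (ν + 1) * a 0 = l * a 0 := by
    refine tendsto_nhds_unique hA (hB.congr' ?_)
    filter_upwards [nhdsWithin_le_nhds hkey, self_mem_nhdsWithin] with u h1 hu
    rw [← h1, div_pow]
    ring
  have h1 : l ^ ν = 1 := by
    have h2 := mul_right_cancel₀ ha0 hAB
    rw [pow_succ] at h2
    exact mul_right_cancel₀ hl0 (by rw [h2, one_mul])
  exact Nat.le_of_dvd (by omega) (hprim.dvd_of_pow_eq_one ν h1)

end Pool.Agent.Y48.PC
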